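import Pool.Agent.Q225.ShB

set_option autoImplicit false

namespace Pool.Agent.Results.MP_87030c_co.AlmostAllShellable

open Finset Filter Topology Pool.Agent.Q225.Shell

/-- all `d`-subsets of the vertex set with `m` elements -/
def subsets (d m : ℕ) : Finset (Finset (Fin m)) := (Finset.univ : Finset (Fin m)).powersetCard d

open Classical in
/-- the probability that the complex is shellable when each `d`-subset of the `m` vertices is
taken as a facet independently with probability `p` -/
noncomputable def prob (p : ℝ) (d m : ℕ) : ℝ :=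
  ∑ A ∈ (subsets d m).powerset.filter (fun A => Shellable d A),
    p ^ A.card * (1 - p) ^ ((subsets d m).card - A.card)

open Classical in
/-- the proportion of shellable complexes among all pure complexes with facet size `d` on `m`
vertices -/
noncomputable def proportion (d m : ℕ) : ℝ :=
  (((subsets d m).powerset.filter (fun A => Shellable d A)).card : ℝ) / ((subsets d m).powerset.card : ℝ)

theorem prob_eq (p : ℝ) (d m : ℕ) : prob p d m = Ex p (subsets d m) (fun A => ind (Shellable d A)) := by
  classical
  unfold prob Ex
  rw [Finset.sum_filter]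
  refine Finset.sum_congr rfl fun A _ => ?_
  unfold ind
  split_ifs <;> simp_all

theorem proportion_eq (d m : ℕ) : proportion d m = prob (1 / 2) d m := by
  classical
  unfold proportion prob
  rw [Finset.card_powerset, div_eq_mul_inv, ← nsmul_eq_mul, ← Finset.sum_const]
  refine Finset.sum_congr rfl fun A hA => ?_
  have h1 := Finset.card_le_card (Finset.mem_powerset.mp (Finset.mem_filter.mp hA).1)
  rw [show (1 : ℝ) - 1 / 2 = 1 / 2 by norm_num, ← pow_add, Nat.add_sub_cancel' h1, one_div, inv_pow]
  push_cast
  rfl

theorem prob_tendsto (d : ℕ) (hd : 1 ≤ d) (p : ℝ) (h0 : 0 < p) (h1 : p < 1) :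
    Tendsto (fun m => prob p d m) atTop (𝓝 1) := by
  obtain ⟨e, rfl⟩ : ∃ e, d = e + 1 := ⟨d - 1, by omega⟩
  have hlow : ∀ m, e + 1 ≤ m → 1 - bd p (e + 1) m ≤ prob p (e + 1) m := by
    intro m hm
    have h2 := bad_le h0.le h1.le e (Finset.univ : Finset (Fin m)) (by simpa using hm)
    rw [Finset.card_univ, Fintype.card_fin] at h2
    have h3 : 1 ≤ prob p (e + 1) m + bad p (e + 1) (Finset.univ : Finset (Fin m)) := by
      rw [prob_eq]
      unfold bad subsets
      rw [← Ex_add, ← Ex_one p ((Finset.univ : Finset (Fin m)).powersetCard (e + 1))]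
      refine Ex_mono h0.le h1.le fun A _ => ?_
      by_cases h : Sh (e + 1) A
      · rw [ind_true h.shellable]
        have := ind_nonneg (¬ Sh (e + 1) A)
        linarith
      · rw [ind_true h]
        have := ind_nonneg (Shellable (e + 1) A)
        linarith
    linarith
  have hup : ∀ m, prob p (e + 1) m ≤ 1 := by
    intro m
    rw [prob_eq, ← Ex_one p (subsets (e + 1) m)]
    exact Ex_mono h0.le h1.le fun A _ => ind_le_one _
  have h3 : Tendsto (fun m => 1 - bd p (e + 1) m) atTop (𝓝 1) := by
    have := (tendsto_bd h0 h1 e).const_sub 1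
    rwa [sub_zero] at this
  exact tendsto_of_tendsto_of_tendsto_of_le_of_le' h3 tendsto_const_nhds
    (eventually_atTop.mpr ⟨e + 1, hlow⟩) (Eventually.of_forall hup)

/-- **Answer to the question: yes.** For every fixed facet size `d ≥ 1` almost all pure complexes with
facet size `d` on `m` vertices are shellable, and the same holds in the binomial model with any
fixed probability `p` with `0 < p < 1`. -/
theorem result (d : ℕ) (hd : 1 ≤ d) :
    Tendsto (fun m => proportion d m) atTop (𝓝 1) ∧
    ∀ p : ℝ, 0 < p → p < 1 → Tendsto (fun m => prob p d m) atTop (𝓝 1) := by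
  refine ⟨?_, fun p h0 h1 => prob_tendsto d hd p h0 h1⟩
  simp_rw [proportion_eq]
  exact prob_tendsto d hd (1 / 2) (by norm_num) (by norm_num)

end Pool.Agent.Results.MP_87030c_co.AlmostAllShellable
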